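import Pool.Agent.Helper51.LT.St

/-!
# LT module ARE: area formula and Cauchy-Schwarz
-/

set_option autoImplicit false

namespace Pool.Agent.Helper94.LT

open Complex MeasureTheory Set Metric Filter Topology
open scoped Real ENNReal
open Pool.Agent.Helper51.LT

theorem hAre : StAre := by
  intro Φ w hΦ
  obtain ⟨hd, hi⟩ := hΦ
  set S : Set ℂ := {z : ℂ | ‖z‖ < 1 ∧ ‖Φ z - w‖ ≤ 1} with hS
  have hSb : S ⊆ ball (0 : ℂ) 1 := by
    intro z hz
    rw [mem_ball_zero_iff]
    exact hz.1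
  have hSm : MeasurableSet S := by
    have h1 : IsOpen (ball (0 : ℂ) 1 ∩ Φ ⁻¹' (closedBall w 1)ᶜ) :=
      hd.continuousOn.isOpen_inter_preimage isOpen_ball isClosed_closedBall.isOpen_compl
    have h2 : S = ball (0 : ℂ) 1 \ (ball (0 : ℂ) 1 ∩ Φ ⁻¹' (closedBall w 1)ᶜ) := by
      ext z
      simp only [hS, mem_ofPred_eq, Set.mem_sdiff, mem_inter_iff, mem_ball_zero_iff, mem_preimage,
        mem_compl_iff, mem_closedBall, dist_eq_norm, not_and, not_not]
      constructor
      · rintro ⟨a, b⟩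
        exact ⟨a, fun _ => b⟩
      · rintro ⟨a, b⟩
        exact ⟨a, b a⟩
    rw [h2]
    exact isOpen_ball.measurableSet.diff h1.measurableSet
  have hder : ∀ z ∈ S, HasFDerivWithinAt Φ
      ((ContinuousLinearMap.toSpanSingleton ℂ (deriv Φ z)).restrictScalars ℝ :
        ℂ →L[ℝ] ℂ) S z := by
    intro z hz
    have h1 : HasDerivAt Φ (deriv Φ z) z :=
      (hd.differentiableAt (isOpen_ball.mem_nhds (hSb hz))).hasDerivAt
    exact (h1.hasFDerivAt.restrictScalars ℝ).hasFDerivWithinAt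
  have key := lintegral_abs_det_fderiv_eq_addHaar_image volume hSm hder (hi.mono hSb)
  have hvol : ∀ a : ℂ, volume (closedBall a 1) = ENNReal.ofReal π := by
    intro a
    rw [Complex.volume_closedBall, ENNReal.ofReal_one, one_pow, one_mul, ← NNReal.coe_real_pi,
      ENNReal.ofReal_coe_nnreal]
  have hfirst : ∫⁻ z in S, ENNReal.ofReal (‖deriv Φ z‖ ^ 2) ≤ ENNReal.ofReal π := by
    have h1 : ∫⁻ z in S, ENNReal.ofReal (‖deriv Φ z‖ ^ 2) = volume (Φ '' S) := by
      rw [← key]
      apply lintegral_congr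
      intro z
      rw [Pool.Agent.Helper60.Rel.det_mul_complex, abs_of_nonneg (by positivity)]
    rw [h1, ← hvol w]
    apply measure_mono
    rintro _ ⟨z, hz, rfl⟩
    rw [mem_closedBall, dist_eq_norm]
    exact hz.2
  refine ⟨hfirst, ?_⟩
  have hSv : volume S ≤ ENNReal.ofReal π := by
    rw [← hvol 0]
    exact measure_mono (hSb.trans ball_subset_closedBall)
  have h2 : 2 * ∫⁻ z in S, ENNReal.ofReal ‖deriv Φ z‖ ≤ 2 * ENNReal.ofReal π := by
    calc 2 * ∫⁻ z in S, ENNReal.ofReal ‖deriv Φ z‖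
        = ∫⁻ z in S, 2 * ENNReal.ofReal ‖deriv Φ z‖ :=
          (lintegral_const_mul' _ _ (by simp)).symm
      _ ≤ ∫⁻ z in S, (ENNReal.ofReal (‖deriv Φ z‖ ^ 2) + 1) := by
          apply lintegral_mono
          intro z
          have h3 : 2 * ‖deriv Φ z‖ ≤ ‖deriv Φ z‖ ^ 2 + 1 := by
            nlinarith [sq_nonneg (‖deriv Φ z‖ - 1)]
          calc 2 * ENNReal.ofReal ‖deriv Φ z‖ = ENNReal.ofReal (2 * ‖deriv Φ z‖) := by
                rw [ENNReal.ofReal_mul (by norm_num)]
                simp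
            _ ≤ ENNReal.ofReal (‖deriv Φ z‖ ^ 2 + 1) := ENNReal.ofReal_le_ofReal h3
            _ = ENNReal.ofReal (‖deriv Φ z‖ ^ 2) + 1 := by
                rw [ENNReal.ofReal_add (by positivity) (by norm_num), ENNReal.ofReal_one]
      _ = (∫⁻ z in S, ENNReal.ofReal (‖deriv Φ z‖ ^ 2)) + volume S := by
          rw [lintegral_add_right _ measurable_const]
          simp
      _ ≤ ENNReal.ofReal π + ENNReal.ofReal π := add_le_add hfirst hSv
      _ = 2 * ENNReal.ofReal π := (two_mul _).symm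
  exact (ENNReal.mul_le_mul_iff_right (by simp) (by simp)).1 h2

end Pool.Agent.Helper94.LT
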